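import Pool.Agent.R426.QC.Tr

/-!
# The traces of Frobenius of the twists of `X_0(49)` over extensions of degree 1, 2 of the residue fields
-/

set_option autoImplicit false
set_option linter.unusedSectionVars false

namespace Pool.Agent.R938.QM

open Pool.Agent.Y698
open Pool.Agent.Y698.SG (sy sy_val sy_sgn)
open Pool.Agent.R426.QC
open H667R3 Pool.Agent.W192.HK Pool.Agent.TH936.CM Pool.Agent.TH936.PU
open Pool.Agent.Y279.SG (sy_eq)
open W165.CE (pw)

lemma card_rr (z : RR) : Nat.card (RR ⧸ sp z) = (nR z).natAbs := by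
  have h2 := nm_nI (sp z)
  rw [nI_sp] at h2
  unfold nm at h2
  exact_mod_cast h2

lemma seven_mem : (7 : RR) ∈ sp fR := by
  rw [Ideal.mem_span_singleton]
  refine ⟨-fR, ?_⟩
  have := fR_sq
  linear_combination this

lemma e7_sq' {z : RR} (hz : Prime z) (h7 : ¬ z ∣ 7) : e7 z ^ 2 = 1 := by
  refine e7_sq fun h => ?_
  rw [Ideal.mem_span_singleton] at h
  obtain ⟨c, hc⟩ := h
  rcases hz.irreducible.isUnit_or_isUnit hc with hu | hu
  · -- `fR` is not a unit
    have h1 : IsUnit (7 : RR) := by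
      have h2 : (7 : RR) = fR * (-fR) := by
        have := fR_sq
        linear_combination this
      rw [h2]
      exact hu.mul hu.neg
    have h3 := nR_mul (7 : RR)
    obtain ⟨w, hw⟩ := h1.exists_right_inv
    have h4 := nR_mul 7 w
    rw [hw] at h4
    have h5 : (7 : RR) = ((7 : ℕ) : RR) := by push_cast; rfl
    rw [h5, nR_nat] at h4
    have h6 : nR (1 : RR) = 1 := by
      have : (1 : RR) = ((1 : ℕ) : RR) := by push_cast; rfl
      rw [this, nR_nat]; norm_num
    rw [h6] at h4
    have h7 : (7 : ℤ) ∣ 1 := ⟨7 * nR w, by rw [h4]; push_cast; ring⟩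
    omega
  · apply h7
    obtain ⟨u, rfl⟩ := hu
    have h8 : fR = z * ((u⁻¹ : RRˣ) : RR) := by rw [hc, mul_assoc, Units.mul_inv, mul_one]
    have h9 : (7 : RR) = fR * (-fR) := by
      have := fR_sq
      linear_combination this
    rw [h9]
    nth_rewrite 1 [h8]
    exact ⟨((u⁻¹ : RRˣ) : RR) * (-fR), by ring⟩

/-- the trace over the quadratic extension of the residue field -/
theorem trace_two' (k : Type) [Field k] [Finite k] {ϖ : RR} (h : Prime ϖ) (h7 : ¬ ϖ ∣ 7)
    (hk : (Nat.card k : ℤ) = nR ϖ ^ 2) :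
    (((Nat.card k : ℤ) - Nat.card (AP (EX k 0)) : ℤ) : ℂ) = (ϖ : ℂ) ^ 2 + (cj ϖ : ℂ) ^ 2 := by
  rw [EX_zero]
  have he := e7_sq' h h7
  rcases prime_cases h with ⟨p, hp, hN⟩ | ⟨q, hq, hϖ⟩
  · have hk' : Nat.card k = p ^ 2 := by
      rw [hN] at hk
      exact_mod_cast hk
    have hp7 : p ≠ 7 := by
      rintro rfl
      apply h7
      refine ⟨cj ϖ, ?_⟩
      rw [mul_cj, hN]
      push_cast
      rfl
    rw [trace_fin k hp hp7 two_ne_zero hk']
    have hb := (bc_split hp hN (sp_cj_ne hp hp7 hN)).1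
    have e1 : pw (bc p) (ec p) 2 = bc p * bc p - ec p * 2 := rfl
    have e2 : ec p = p := by
      unfold ec
      rw [if_neg hp7]
    have e3 : (ϖ : ℂ) * (cj ϖ : ℂ) = (p : ℂ) := by
      have := congrArg (fun r : RR => (r : ℂ)) (mul_cj ϖ)
      rw [hN] at this
      simpa using this
    rw [e1, hb, psi_sp, psi_sp, e7_cj, e2, ← e3]
    linear_combination ((ϖ : ℂ) + (cj ϖ : ℂ)) ^ 2 * he
  · have hN : nR ϖ = (q : ℤ) ^ 2 := by
      rcases hϖ with rfl | rfl
      · rw [nR_nat]
      · rw [nR_neg, nR_nat]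
    have hk' : Nat.card k = q ^ 4 := by
      rw [hN] at hk
      have h1 : ((q : ℤ) ^ 2) ^ 2 = (q : ℤ) ^ 4 := by ring
      rw [h1] at hk
      exact_mod_cast hk
    rw [trace_fin k hq.pr hq.seven four_ne_zero hk']
    have hirr : Irreducible (q : RR) := by
      have h1 : Prime (q : RR) := by
        rcases hϖ with h1 | h1
        · rw [← h1]; exact h
        · have := h.neg
          rwa [h1, neg_neg] at this
      exact h1.irreducible
    have hb := (bc_inert hirr hq.pr).1
    have e1 : pw (bc q) (ec q) 4 = bc q * (bc q * (bc q * bc q - ec q * 2) - ec q * bc q) -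
      ec q * (bc q * bc q - ec q * 2) := rfl
    have e2 : ec q = q := by
      unfold ec
      rw [if_neg hq.seven]
    have e3 : cj (q : RR) = q := map_natCast cj q
    rw [e1, hb, e2]
    rcases hϖ with rfl | rfl
    · rw [e3]
      push_cast
      ring
    · have e4 : cj (-(q : RR)) = -(q : RR) := by rw [map_neg, e3]
      rw [e4]
      push_cast
      ring

section
variable {k : Type} [Field k] {z : RR}

lemma ker_eq (hz : Prime z) (φ : RR →+* k) (h0 : φ z = 0) (x : RR) : φ x = 0 ↔ x ∈ sp z := by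
  constructor
  · intro hx
    have hmax : (sp z).IsMaximal := PrincipalIdealRing.isMaximal_of_irreducible hz.irreducible
    have hle : sp z ≤ RingHom.ker φ := by
      rw [Ideal.span_singleton_le_iff_mem, RingHom.mem_ker]
      exact h0
    have heq := hmax.eq_of_le (RingHom.ker_ne_top φ) hle
    rw [heq, RingHom.mem_ker]
    exact hx
  · intro hx
    rw [Ideal.mem_span_singleton] at hx
    obtain ⟨c, rfl⟩ := hx
    rw [map_mul, h0, zero_mul]

lemma surj_of_card [Finite k] (hz : Prime z) (φ : RR →+* k) (h0 : φ z = 0)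
    (hk : Nat.card k = (nR z).natAbs) : Function.Surjective φ := by
  have hker := ker_eq hz φ h0
  let ψ : RR ⧸ sp z →+* k := Ideal.Quotient.lift (sp z) φ fun x hx => (hker x).2 hx
  have hinj : Function.Injective ψ := by
    rw [injective_iff_map_eq_zero]
    intro a ha
    obtain ⟨x, rfl⟩ := Ideal.Quotient.mk_surjective a
    rw [Ideal.Quotient.lift_mk] at ha
    exact Ideal.Quotient.eq_zero_iff_mem.2 ((hker x).1 ha)
  have hfin : Finite (RR ⧸ sp z) := Finite.of_injective ψ hinj
  have hbij : Function.Bijective ψ := by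
    rw [Nat.bijective_iff_injective_and_card]
    exact ⟨hinj, by rw [hk, card_rr]⟩
  intro y
  obtain ⟨a, rfl⟩ := hbij.2 y
  obtain ⟨x, rfl⟩ := Ideal.Quotient.mk_surjective a
  exact ⟨x, (Ideal.Quotient.lift_mk _ _ _).symm⟩

/-- elements of the residue field -/
lemma pow_res [Finite k] (hz : Prime z) (φ : RR →+* k) (h0 : φ z = 0) {x : RR} (hx : φ x ≠ 0) :
    φ x ^ ((nR z).natAbs - 1) = 1 := by
  have hker := ker_eq hz φ h0
  let ψ : RR ⧸ sp z →+* k := Ideal.Quotient.lift (sp z) φ fun x hx => (hker x).2 hx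
  have hinj : Function.Injective ψ := by
    rw [injective_iff_map_eq_zero]
    intro a ha
    obtain ⟨x, rfl⟩ := Ideal.Quotient.mk_surjective a
    rw [Ideal.Quotient.lift_mk] at ha
    exact Ideal.Quotient.eq_zero_iff_mem.2 ((hker x).1 ha)
  have hfin : Finite (RR ⧸ sp z) := Finite.of_injective ψ hinj
  have hmax : (sp z).IsMaximal := PrincipalIdealRing.isMaximal_of_irreducible hz.irreducible
  letI : Field (RR ⧸ sp z) := Ideal.Quotient.field (sp z)
  letI : Fintype (RR ⧸ sp z) := Fintype.ofFinite _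
  have h1 : (Ideal.Quotient.mk (sp z) x) ≠ 0 := by
    intro h
    apply hx
    have h2 : ψ (Ideal.Quotient.mk (sp z) x) = φ x := Ideal.Quotient.lift_mk _ _ _
    rw [← h2, h, map_zero]
  have h3 := FiniteField.pow_card_sub_one_eq_one (Ideal.Quotient.mk (sp z) x) h1
  rw [← Nat.card_eq_fintype_card, card_rr] at h3
  have h4 := congrArg ψ h3
  rw [map_pow, map_one] at h4
  exact h4

lemma char_odd [Finite k] (hz : Prime z) (h2 : ¬ z ∣ 2) (φ : RR →+* k) (h0 : φ z = 0) :
    (2 : k) ≠ 0 := by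
  intro h
  apply h2
  have h1 : φ 2 = 0 := by rw [map_ofNat]; exact h
  rw [ker_eq hz φ h0, Ideal.mem_span_singleton] at h1
  exact h1

end

lemma ring_char (k : Type) [Field k] (h2 : (2 : k) ≠ 0) : ringChar k ≠ 2 := by
  intro h
  apply h2
  have h3 : ((2 : ℕ) : k) = 0 := by
    rw [← h]
    exact ringChar.Nat.cast_ringChar
  exact_mod_cast h3

theorem core (k : Type) [Field k] [Finite k] (z : RR) (hz : Prime z) (h14 : ¬ z ∣ 14)
    (φ : RR →+* k) (h0 : φ z = 0) (f : ℕ) (hf : f = 1 ∨ f = 2)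
    (hk : Nat.card k = (nR z).natAbs ^ f) (D : RR) (hD : ¬ z ∣ D) :
    (((Nat.card k : ℤ) - Nat.card {p : k × k //
      p.2 ^ 2 = p.1 ^ 3 - 35 * φ D ^ 2 * p.1 - 98 * φ D ^ 3} : ℤ) : ℂ) =
    (sy z D * e7 z) ^ f * ((z : ℂ) ^ f + (starRingEnd ℂ) (z : ℂ) ^ f) := by
  classical
  letI : Fintype k := Fintype.ofFinite k
  have hz2 : ¬ z ∣ 2 := fun h => h14 (h.trans ⟨7, by norm_num⟩)
  have hz7 : ¬ z ∣ 7 := fun h => h14 (h.trans ⟨2, by norm_num⟩)
  have h2 : (2 : k) ≠ 0 := char_odd hz hz2 φ h0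
  have hF := ring_char k h2
  have hker := ker_eq hz φ h0
  have hφD : φ D ≠ 0 := by
    intro h
    rw [hker, Ideal.mem_span_singleton] at h
    exact hD h
  have hDs : D ∉ sp z := fun h => hφD ((hker D).2 h)
  have hsgn := sy_sgn hDs
  -- reduction to the curve
  have htw := count_tw hF (-35) (-98) hφD
  have hAP := card_AP_EX' k h2 0
  have c1 : Nat.card {p : k × k // p.2 ^ 2 = p.1 ^ 3 - 35 * φ D ^ 2 * p.1 - 98 * φ D ^ 3}
      = Nat.card {x : k × k // x.2 ^ 2 = x.1 ^ 3 + (-35) * φ D ^ 2 * x.1 + (-98) * φ D ^ 3} := by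
    refine Nat.card_congr (Equiv.subtypeEquivRight fun x => ?_)
    constructor
    · intro h
      rw [h]; ring
    · intro h
      rw [h]; ring
  have c2 : Nat.card {x : k × k // x.2 ^ 2 = x.1 ^ 3 + (-35) * x.1 + (-98)} =
      Nat.card (AP (EX k 0)) := by
    rw [hAP]
    refine Nat.card_congr (Equiv.subtypeEquivRight fun x => ?_)
    constructor
    · intro h
      rw [h]; ring
    · intro h
      rw [h]; ring
  have c3 : (Fintype.card k : ℤ) = (Nat.card k : ℤ) := by rw [Nat.card_eq_fintype_card]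
  rw [c2, c3] at htw
  rw [c1, htw]
  push_cast
  have hcj : (starRingEnd ℂ) (z : ℂ) = ((cj z : RR) : ℂ) := (cj_coe z).symm
  have hN := nR_nonneg z
  have hNabs : ((nR z).natAbs : ℤ) = nR z := Int.natAbs_of_nonneg hN
  rcases hf with rfl | rfl
  · rw [pow_one] at hk
    have hs := surj_of_card hz φ h0 hk
    have hk' : (Nat.card k : ℤ) = nR z := by rw [hk, hNabs]
    have ht := trace_one k hz hz7 hk'
    push_cast at ht
    rw [ht, ← sy_eq φ hs hker D, hcj, pow_one, pow_one, pow_one]
    ring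
  · have hk' : (Nat.card k : ℤ) = nR z ^ 2 := by rw [hk]; push_cast; rw [sq_abs]
    have ht := trace_two' k hz hz7 hk'
    push_cast at ht
    -- the character is trivial
    have hq : quadraticChar k (φ D) = 1 := by
      rw [quadraticChar_one_iff_isSquare hφD, FiniteField.isSquare_iff hF hφD]
      have h1 := pow_res hz φ h0 hφD
      have h3 : Fintype.card k = (nR z).natAbs ^ 2 := by rw [← Nat.card_eq_fintype_card, hk]
      have hodd : (nR z).natAbs % 2 = 1 := by
        by_contra hcon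
        have h4 : Fintype.card k % 2 = 0 := by
          rw [h3, Nat.pow_mod]
          have : (nR z).natAbs % 2 = 0 := by omega
          rw [this]
        exact hF (FiniteField.even_card_iff_char_two.2 h4)
      obtain ⟨r, hr⟩ : ∃ r, (nR z).natAbs = 2 * r + 1 := ⟨(nR z).natAbs / 2, by omega⟩
      have h5 : Fintype.card k / 2 = ((nR z).natAbs - 1) * (r + 1) := by
        rw [h3, hr, Nat.add_sub_cancel]
        have : (2 * r + 1) ^ 2 = 2 * (2 * r * (r + 1)) + 1 := by ring
        rw [this]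
        omega
      rw [h5, pow_mul, h1, one_pow]
    rw [ht, hq, hcj, mul_pow, e7_sq' hz hz7]
    have hs2 : sy z D ^ 2 = 1 := by
      rcases hsgn with h | h <;> rw [h] <;> norm_num
    rw [hs2]
    push_cast
    ring

end Pool.Agent.R938.QM
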